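import Pool.Agent.W203.WS.Stm

/-!
# Waring's problem with integer parts of almost all shifted powers: definitions and statements
-/

set_option autoImplicit false

open MeasureTheory Finset

namespace Pool.Agent.W203.WS

/-- smoothed additive character of the integer part of `y` -/
noncomputable def rho (σ t y : ℝ) : ℂ :=
  ∑' n : ℤ, e (t * n) * (Real.exp (-Real.pi * ((y - 1 / 2 - n) / σ) ^ 2) : ℝ)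

/-- smoothed exponential sum over the integer parts -/
noncomputable def T (k P : ℕ) (σ t θ : ℝ) : ℂ := ∑ x ∈ Ico P (4 * P), rho σ t (((x : ℝ) + θ) ^ k)

/-- the factor in front of `S` -/
noncomputable def aa (σ t : ℝ) : ℂ := (σ * Real.exp (-Real.pi * (σ * t) ^ 2) : ℝ) * e (-(t / 2))

/-- Poisson summation -/
def S_POI : Prop :=
  ∀ (k P : ℕ) (σ t θ : ℝ), 0 < σ →
    Summable (fun j : ℤ => ‖aa σ (t + j) * S k P (t + j) θ‖) ∧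
    T k P σ t θ = ∑' j : ℤ, aa σ (t + j) * S k P (t + j) θ

/-- the rest is small in mean square -/
def S_L2R : Prop :=
  ∀ k : ℕ, 2 ≤ k → ∃ C : ℝ, 0 < C ∧ ∀ (P : ℕ) (σ t : ℝ), 1 ≤ P → 0 < σ → σ ≤ 1 → |t| ≤ 1 / 2 →
    IntervalIntegrable (fun θ => ‖T k P σ t θ - aa σ t * S k P t θ‖ ^ 2) volume 0 1 ∧
    ∫ θ in (0 : ℝ)..1, ‖T k P σ t θ - aa σ t * S k P t θ‖ ^ 2 ≤ C * P

/-- if `N` is not represented then the integral is tiny -/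
def S_NEAR : Prop :=
  ∀ s : ℕ, ∃ C : ℝ, 0 < C ∧ ∀ (k P : ℕ) (σ : ℝ) (θ : Fin s → ℝ) (N : ℤ), 1 ≤ P → 0 < σ → σ ≤ 1 →
    (∀ x ∈ Fintype.piFinset (fun _ : Fin s => Ico P (4 * P)),
      ∑ i, ⌊((x i : ℝ) + θ i) ^ k⌋ ≠ N) →
    ‖∫ t in (-(1 / 2) : ℝ)..(1 / 2), e (-(t * N)) * ∏ i, T k P σ t (θ i)‖ ≤
      (C * P) ^ s * Real.exp (-(Real.pi / (8 * σ ^ 2)))

/-- average of the difference of the products -/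
def S_E2 : Prop :=
  ∀ k s : ℕ, 2 ≤ k → 5 ≤ s → ∃ C : ℝ, 0 < C ∧ ∀ (P : ℕ) (σ : ℝ), 1 ≤ P → 0 < σ → σ ≤ 1 →
    IntegrableOn (fun θ : Fin s → ℝ => ∫ t in (-(1 / 2) : ℝ)..(1 / 2),
      ‖(∏ i, T k P σ t (θ i)) - aa σ t ^ s * ∏ i, S k P t (θ i)‖) (cube s) ∧
    ∫ θ in cube s, (∫ t in (-(1 / 2) : ℝ)..(1 / 2),
      ‖(∏ i, T k P σ t (θ i)) - aa σ t ^ s * ∏ i, S k P t (θ i)‖) ≤
      C * ((P : ℝ) ^ ((s : ℝ) - k - 1 / 4) + (P : ℝ) ^ ((s : ℝ) / 2))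

/-- the main term -/
def S_MT : Prop :=
  ∀ k s : ℕ, 2 ≤ k → 5 ≤ s → ∃ c C : ℝ, 0 < c ∧ 0 < C ∧ ∀ (P : ℕ) (σ : ℝ) (N : ℤ), 1 ≤ P →
    0 < σ → σ * s ≤ 1 →
    (s : ℝ) * (3 / 2 * P) ^ k ≤ N + s / 2 → N + s / 2 ≤ (s : ℝ) * (3 * P) ^ k →
    c * σ ^ s * (P : ℝ) ^ ((s : ℝ) - k) - C ≤
      ‖∫ t in (-(1 / 2) : ℝ)..(1 / 2), e (-(t * N)) * (aa σ t ^ s * J1 k P t ^ s)‖

/-- for almost every shift the error is small along `P = 2 ^ j`, `σ = P ^ (-1 / (16 s))` -/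
def S_BC2 : Prop :=
  ∀ k s : ℕ, 2 ≤ k → 2 * k < s →
    ∀ᵐ θ ∂((volume : Measure (Fin s → ℝ)).restrict (cube s)),
      ∃ j₀ : ℕ, ∀ j : ℕ, j₀ ≤ j → ∀ N : ℤ,
        ‖(∫ t in (-(1 / 2) : ℝ)..(1 / 2), e (-(t * N)) *
            ∏ i, T k (2 ^ j) (((2 : ℝ) ^ j) ^ (-(1 / (16 * (s : ℝ))))) t (θ i)) -
          ∫ t in (-(1 / 2) : ℝ)..(1 / 2), e (-(t * N)) *
            (aa (((2 : ℝ) ^ j) ^ (-(1 / (16 * (s : ℝ))))) t ^ s * J1 k (2 ^ j) t ^ s)‖ ≤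
          ((2 : ℝ) ^ j) ^ ((s : ℝ) - k - 1 / 8)

/-- integer parts: shifts in the unit cube -/
def S_FL : Prop :=
  ∀ k s : ℕ, 2 ≤ k → 2 * k < s →
    ∀ᵐ θ ∂((volume : Measure (Fin s → ℝ)).restrict (cube s)), ∀ L : ℕ,
      ∃ N₀ : ℤ, ∀ N : ℤ, N₀ ≤ N → ∃ x : Fin s → ℕ, (∀ i, L ≤ x i) ∧
        ∑ i, ⌊((x i : ℝ) + θ i) ^ k⌋ = N

/-- integer parts: all real shifts -/
def S_FLALL : Prop :=
  ∀ k s : ℕ, 2 ≤ k → 2 * k < s →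
    ∀ᵐ θ : Fin s → ℝ, ∀ L : ℤ, ∃ N₀ : ℤ, ∀ N : ℤ, N₀ ≤ N → ∃ x : Fin s → ℤ, (∀ i, L ≤ x i) ∧
      ∑ i, ⌊((x i : ℝ) + θ i) ^ k⌋ = N

/-- `k` summands never suffice -/
def S_LOW : Prop :=
  ∀ k s : ℕ, 2 ≤ k → s ≤ k → ∀ (θ : Fin s → ℝ) (N₀ : ℤ), ∃ N : ℤ, N₀ ≤ N ∧
    ∀ x : Fin s → ℤ, (∀ i, 0 ≤ (x i : ℝ) + θ i) → ∑ i, ⌊((x i : ℝ) + θ i) ^ k⌋ ≠ N

end Pool.Agent.W203.WS
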