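import Mathlib

/-!
# Waring's problem with almost all shifts: definitions and statements of the parts

`k`-th powers of `x + θ`, `x` an integer in `[P, 4P)`, `θ` a shift in `[0, 1]`.
-/

set_option autoImplicit false

open MeasureTheory Finset

namespace Pool.Agent.W203.WS

/-- `e(x) = exp(2 π i x)` -/
noncomputable def e (x : ℝ) : ℂ := Complex.exp (2 * (Real.pi : ℂ) * Complex.I * (x : ℂ))

/-- the exponential sum over the shifted powers -/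
noncomputable def S (k P : ℕ) (t θ : ℝ) : ℂ := ∑ x ∈ Ico P (4 * P), e (t * ((x : ℝ) + θ) ^ k)

/-- the exponential integral -/
noncomputable def J1 (k P : ℕ) (t : ℝ) : ℂ := ∫ u in (P : ℝ)..(4 * P), e (t * u ^ k)

/-- Gaussian weight at scale `ε` -/
noncomputable def Kr (ε x : ℝ) : ℝ := Real.exp (-Real.pi * (x / ε) ^ 2)

/-- its Fourier transform -/
noncomputable def Kh (ε t : ℝ) : ℝ := ε * Real.exp (-Real.pi * (ε * t) ^ 2)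

/-- weighted number of representations of `M` -/
noncomputable def rr (k s P : ℕ) (ε M : ℝ) (θ : Fin s → ℝ) : ℝ :=
  ∑ x ∈ Fintype.piFinset (fun _ : Fin s => Ico P (4 * P)),
    Kr ε ((∑ i, ((x i : ℝ) + θ i) ^ k) - M)

/-- the expected number -/
noncomputable def Jm (k s P : ℕ) (ε M : ℝ) : ℝ :=
  ∫ u in Set.pi Set.univ (fun _ : Fin s => Set.Icc (P : ℝ) (4 * P)), Kr ε ((∑ i, (u i) ^ k) - M)

/-- the error -/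
noncomputable def Er (k s P : ℕ) (ε : ℝ) (θ : Fin s → ℝ) : ℝ :=
  ∫ t : ℝ, Kh ε t * ‖(∏ i, S k P t (θ i)) - J1 k P t ^ s‖

/-- the unit cube -/
def cube (s : ℕ) : Set (Fin s → ℝ) := Set.pi Set.univ (fun _ => Set.Icc (0 : ℝ) 1)

/-- the border between small and large frequencies -/
noncomputable def T0 (k P : ℕ) : ℝ := (P : ℝ) ^ (-(k : ℝ) + 1 / 2)

/-- first derivative test -/
def S_FDT : Prop :=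
  ∀ (φ φ' φ'' : ℝ → ℝ) (a b μ : ℝ), a ≤ b → 0 < μ →
    (∀ x ∈ Set.Icc a b, HasDerivAt φ (φ' x) x) → (∀ x ∈ Set.Icc a b, HasDerivAt φ' (φ'' x) x) →
    ContinuousOn φ'' (Set.Icc a b) → (∀ x ∈ Set.Icc a b, μ ≤ φ' x) →
    (∀ x ∈ Set.Icc a b, 0 ≤ φ'' x) → ‖∫ x in a..b, e (φ x)‖ ≤ 1 / μ

/-- mean square of `S` over the shift -/
def S_SQ : Prop :=
  ∀ (k P : ℕ) (t : ℝ), 2 ≤ k → 1 ≤ P → t ≠ 0 →
    ∫ θ in (0 : ℝ)..1, ‖S k P t θ‖ ^ 2 ≤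
      3 * P + (1 + Real.log (3 * P)) / (|t| * (P : ℝ) ^ (k - 2))

/-- bounds for the integral -/
def S_IB : Prop :=
  ∀ (k P : ℕ) (t : ℝ), 1 ≤ k → 1 ≤ P →
    ‖J1 k P t‖ ≤ 3 * P ∧ (t ≠ 0 → ‖J1 k P t‖ ≤ 1 / (|t| * (P : ℝ) ^ (k - 1)))

/-- sum minus integral -/
def S_DF : Prop :=
  ∀ k : ℕ, 1 ≤ k → ∃ C : ℝ, 0 < C ∧ ∀ (P : ℕ) (t θ : ℝ), 1 ≤ P → 0 ≤ θ → θ ≤ 1 →
    ‖S k P t θ - J1 k P t‖ ≤ C * |t| * (P : ℝ) ^ k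

/-- small frequencies, all shifts -/
def S_R1 : Prop :=
  ∀ k s : ℕ, 2 ≤ k → 5 ≤ s → ∃ C : ℝ, 0 < C ∧ ∀ (P : ℕ) (ε : ℝ) (θ : Fin s → ℝ), 1 ≤ P →
    0 < ε → ε ≤ 1 → θ ∈ cube s →
    ∫ t in Set.Icc (-T0 k P) (T0 k P), Kh ε t * ‖(∏ i, S k P t (θ i)) - J1 k P t ^ s‖ ≤
      C * ε * (P : ℝ) ^ ((s : ℝ) - 1 - k)

/-- large frequencies -/
def S_R2 : Prop :=
  ∀ k s : ℕ, 2 ≤ k → 5 ≤ s → ∃ C : ℝ, 0 < C ∧ ∀ (P : ℕ) (ε : ℝ), 1 ≤ P → 0 < ε → ε ≤ 1 →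
    ∫ t in (Set.Icc (-T0 k P) (T0 k P))ᶜ,
      Kh ε t * (∫ θ in (0 : ℝ)..1, ‖S k P t θ‖ ^ 2) ^ ((s : ℝ) / 2) ≤
      C * (ε * (P : ℝ) ^ ((s : ℝ) - k - 1 / 2) + (P : ℝ) ^ ((s : ℝ) / 2))

/-- for one frequency: average over all shifts -/
def S_AV : Prop :=
  ∀ (k s P : ℕ) (t : ℝ), 1 ≤ s →
    ∫ θ in cube s, ‖(∏ i, S k P t (θ i)) - J1 k P t ^ s‖ ≤
      2 * (∫ θ in (0 : ℝ)..1, ‖S k P t θ‖ ^ 2) ^ ((s : ℝ) / 2)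

/-- the average of the error -/
def S_EE : Prop :=
  ∀ k s : ℕ, 2 ≤ k → 5 ≤ s → ∃ C : ℝ, 0 < C ∧ ∀ (P : ℕ) (ε : ℝ), 1 ≤ P → 0 < ε → ε ≤ 1 →
    IntegrableOn (fun θ => Er k s P ε θ) (cube s) ∧
    ∫ θ in cube s, Er k s P ε θ ≤
      C * (ε * (P : ℝ) ^ ((s : ℝ) - k - 1 / 2) + (P : ℝ) ^ ((s : ℝ) / 2))

/-- the Fourier identity -/
def S_ID : Prop :=
  ∀ (k s P : ℕ) (ε M : ℝ) (θ : Fin s → ℝ), 0 < ε →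
    |rr k s P ε M θ - Jm k s P ε M| ≤ Er k s P ε θ

/-- lower bound for the expected number -/
def S_JL : Prop :=
  ∀ k s : ℕ, 1 ≤ k → 1 ≤ s → ∃ c : ℝ, 0 < c ∧ ∀ (P : ℕ) (ε M : ℝ), 1 ≤ P → 0 < ε → ε ≤ 1 →
    (s : ℝ) * (3 / 2 * P) ^ k ≤ M → M ≤ (s : ℝ) * (3 * P) ^ k →
    c * ε * (P : ℝ) ^ ((s : ℝ) - k) ≤ Jm k s P ε M

/-- for almost every shift the count is positive in a strong sense along `P = 2 ^ j` -/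
def S_BC : Prop :=
  ∀ (k s : ℕ) (β : ℝ), 2 ≤ k → 2 * k < s → 0 ≤ β → β < (s : ℝ) / 2 - k →
    ∃ c : ℝ, 0 < c ∧ ∀ᵐ θ ∂((volume : Measure (Fin s → ℝ)).restrict (cube s)),
      ∃ j₀ : ℕ, ∀ j : ℕ, j₀ ≤ j → ∀ M : ℝ,
        (s : ℝ) * (3 / 2 * (2 : ℝ) ^ j) ^ k ≤ M → M ≤ (s : ℝ) * (3 * (2 : ℝ) ^ j) ^ k →
        c * ((2 : ℝ) ^ j) ^ ((s : ℝ) - k - β) ≤ rr k s (2 ^ j) (((2 : ℝ) ^ j) ^ (-β)) M θ

/-- the theorem: `k ≥ 2`, more than `2 k` variables, almost every shift, every large `M` -/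
def S_MAIN : Prop :=
  ∀ (k s : ℕ) (δ : ℝ), 2 ≤ k → 2 * k < s → δ < ((s : ℝ) - 2 * k) / (2 * k) →
    ∀ᵐ θ ∂((volume : Measure (Fin s → ℝ)).restrict (cube s)),
      ∀ L : ℕ, ∃ M₀ : ℝ, ∀ M : ℝ, M₀ ≤ M → ∃ x : Fin s → ℕ, (∀ i, L ≤ x i) ∧
        |(∑ i, ((x i : ℝ) + θ i) ^ k) - M| < M ^ (-δ)

/-- all real shifts -/
def S_ALL : Prop :=
  ∀ (k s : ℕ) (δ : ℝ), 2 ≤ k → 2 * k < s → δ < ((s : ℝ) - 2 * k) / (2 * k) →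
    ∀ᵐ θ : Fin s → ℝ, ∀ L : ℤ, ∃ M₀ : ℝ, ∀ M : ℝ, M₀ ≤ M → ∃ x : Fin s → ℤ,
      (∀ i, L ≤ x i) ∧ |(∑ i, ((x i : ℝ) + θ i) ^ k) - M| < M ^ (-δ)

end Pool.Agent.W203.WS
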